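import Mathlib
import Pool.Prelude.Def_F_c31e40fa
import Pool.Agent.Zk29.Gen.Crit

set_option autoImplicit false

/-!
# A closing inequality at every return of the critical value

For every parameter `c` of the Multibrot set and every time `J` the distance to the nearest
superattracting parameter of period at most `J + 2` is bounded by the return distance
`|f^J(c) - c|`, in terms of the derivative, the previous returns and the time at which points near
`c` escape. Only logarithms of inverse derivatives and the square of the escape time enter.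
-/

namespace Pool.Agent.Results.MP_c35c17_an.EffectiveClosing

/-- The map `z ↦ z ^ n + c`. -/
def f (n : ℕ) (c : ℂ) : ℂ → ℂ := fun z => z ^ n + c

/-- One plus the logarithm of the sum of the inverse derivatives of the iterates of order less than
`J` at the critical value `c`. -/
noncomputable def W (n : ℕ) (c : ℂ) (J : ℕ) : ℝ :=
  1 + Real.log (∑ j ∈ Finset.range J, ‖deriv (f n c)^[j] c‖⁻¹)

/-- The iterates of order `1, …, J - 1` of the critical value `c` have distance at least `δ` from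
`c`, where `0 < δ ≤ 1`. -/
def Apart (n : ℕ) (c : ℂ) (J : ℕ) (δ : ℝ) : Prop :=
  0 < δ ∧ δ ≤ 1 ∧ ∀ j, 1 ≤ j → j < J → δ ≤ ‖(f n c)^[j] c - c‖

/-- `0` is periodic of period `p` for `z ↦ z ^ n + c'`. -/
def Superattracting (n : ℕ) (c' : ℂ) (p : ℕ) : Prop :=
  1 ≤ p ∧ (f n c')^[p] 0 = 0 ∧ N62a1eb23.IsAttractingCycle (f n c') p 0

/-- The closing inequality. The constant `A` depends on the degree only. If some point `y` at
distance at most `δ / (A * W ^ A)` from `c` has left the disc of radius `3` at time `M`, then there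
is a superattracting parameter `c'` of period at most `J + 2` whose distance to `c` is at most
`A * W ^ A * M ^ 2 * |f^J(c) - c| * (5 - log |f^J(c) - c|) / (δ * |(f^J)'(c)|)`. -/
theorem result (n : ℕ) (hn : 2 ≤ n) : ∃ A : ℝ, 1 ≤ A ∧
    ∀ c ∈ N62a1eb23.multibrotSet n, ∀ J M : ℕ, 1 ≤ J → 1 ≤ M →
      ∀ (δ : ℝ) (y : ℂ), Apart n c J δ → 3 ≤ ‖(f n c)^[M] y‖ →
        A * W n c J ^ A * ‖y - c‖ ≤ δ →
        ∃ c' : ℂ, (∃ p ≤ J + 2, Superattracting n c' p) ∧
          ‖c' - c‖ * (‖deriv (f n c)^[J] c‖ * δ) ≤ A * W n c J ^ A * (M : ℝ) ^ 2 *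
            min 1 (‖(f n c)^[J] c - c‖ * (5 - Real.log ‖(f n c)^[J] c - c‖)) := by
  obtain ⟨A, hA, h⟩ := Pool.Agent.Zk29.closing hn
  refine ⟨A, hA, ?_⟩
  intro c hc J M hJ hM δ y hδ hy hyc
  have hP : ∀ k, deriv (f n c)^[k] c = Pool.Agent.W746.LD.P n c c k := fun k =>
    (Pool.Agent.W746.LD.hasDerivAt_orb c k).deriv
  have hW : W n c J = 1 + Real.log (∑ j ∈ Finset.range J, ‖Pool.Agent.W746.LD.P n c c j‖⁻¹) := by
    unfold W
    simp only [hP]
  obtain ⟨c', ⟨p, h1, h2, h3⟩, h4⟩ := h c hc J M hJ hM y hy δ hδ.1 hδ.2.1 hδ.2.2 _ hW hyc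
  refine ⟨c', ⟨p, h2, h1, h3, Pool.Agent.H548R3.MB.att_of_centre hn h1 h3⟩, ?_⟩
  rw [hP]
  exact h4

end Pool.Agent.Results.MP_c35c17_an.EffectiveClosing
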