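import Mathlib
import Pool.Prelude.Def_F_c31e40fa
import Pool.Agent.Zk17.MB.Slow

set_option autoImplicit false

/-!
# Growth and escape near the critical value force superattracting parameters

Let `c` be a parameter of the Multibrot set and let `δ` be a lower bound of the distances of the
returns `f^j(c)`, `1 ≤ j < N`, to the critical value `c`. The distance of `c` to the nearest
superattracting parameter of period at most `N + 2` is bounded, up to a power of `N (1 + log (1/δ))`,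
by `1 / (δ |(f^N)'(c)|)` and by `|y - c| / δ^2` for every point `y` which has left the disc of
radius `3` at the time `N`. For slowly recurrent parameters both bounds are polynomial in `N`.

Proof. The closing inequality `Pool.Agent.Zk29.closing` for the escape time `M = N`, and Cauchy's
inequality if no point near `c` has escaped at the time `N`; the second bound follows from the first
one for all times before `N` by following the orbits of `c` and `y`.
-/

namespace Pool.Agent.Results.MP_c35c17_an.EscapeTimes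

/-- The map `z ↦ z ^ n + c`. -/
def f (n : ℕ) (c : ℂ) : ℂ → ℂ := fun z => z ^ n + c

/-- The parameters of hyperbolic maps. -/
def hyp (n : ℕ) : Set ℂ := {c | ∃ m z, N62a1eb23.IsAttractingCycle (f n c) m z}

/-- The iterates of order `1, …, N - 1` of the critical value `c` have distance at least `δ` from
`c`, where `0 < δ ≤ 1`. -/
def Apart (n : ℕ) (c : ℂ) (N : ℕ) (δ : ℝ) : Prop :=
  0 < δ ∧ δ ≤ 1 ∧ ∀ j, 1 ≤ j → j < N → δ ≤ ‖(f n c)^[j] c - c‖

/-- `0` is periodic of period `p` for `z ↦ z ^ n + c'`, and `c'` is a hyperbolic parameter. -/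
def Superattracting (n : ℕ) (c' : ℂ) (p : ℕ) : Prop :=
  1 ≤ p ∧ (f n c')^[p] 0 = 0 ∧ N62a1eb23.IsAttractingCycle (f n c') p 0

/-- The critical value `c` is slowly recurrent: `|f^j(c) - c| ≥ β j^(-a)` for all `j ≥ 1`. -/
def SlowlyRecurrent (n : ℕ) (c : ℂ) : Prop :=
  ∃ a β : ℝ, 0 ≤ a ∧ 0 < β ∧ ∀ j : ℕ, 1 ≤ j → β * (j : ℝ) ^ (-a) ≤ ‖(f n c)^[j] c - c‖

/-- (1) and (2): the two inequalities, `A` depends on the degree only. (3) At a slowly recurrent
parameter outside the closure of the hyperbolic parameters the derivatives grow at most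
polynomially and the points at distance `η` from `c` need a time of order at least a power of
`1 / η` to escape. -/
theorem result (n : ℕ) (hn : 2 ≤ n) :
    (∃ A : ℝ, 1 ≤ A ∧ ∀ c ∈ N62a1eb23.multibrotSet n, ∀ N : ℕ, 1 ≤ N → ∀ δ : ℝ, Apart n c N δ →
      (∃ c' : ℂ, (∃ p ≤ N + 2, Superattracting n c' p) ∧
        ‖c' - c‖ * (‖deriv (f n c)^[N] c‖ * δ) ≤ A * (N * (1 + Real.log (1 / δ))) ^ A) ∧
      ∀ y : ℂ, 3 < ‖(f n c)^[N] y‖ → ∃ c' : ℂ, (∃ p ≤ N + 2, Superattracting n c' p) ∧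
        ‖c' - c‖ * δ ^ 2 ≤ A * (N * (1 + Real.log (1 / δ))) ^ A * ‖y - c‖) ∧
    ∀ c ∈ N62a1eb23.multibrotSet n, SlowlyRecurrent n c → c ∉ closure (hyp n) →
      ∃ K : ℝ, 1 ≤ K ∧ ∀ N : ℕ, 1 ≤ N → ‖deriv (f n c)^[N] c‖ ≤ K * (N : ℝ) ^ K ∧
        ∀ y : ℂ, ‖y - c‖ ≤ 1 / (K * (N : ℝ) ^ K) → ‖(f n c)^[N] y‖ ≤ 3 := by
  have hP : ∀ c k, deriv (f n c)^[k] c = Pool.Agent.W746.LD.P n c c k := fun c k =>
    (Pool.Agent.W746.LD.hasDerivAt_orb c k).deriv
  have hS : ∀ (c' : ℂ) (m : ℕ), Pool.Agent.H548R3.MB.Centre n m c' →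
      ∃ p ≤ m, Superattracting n c' p := by
    rintro c' m ⟨p, h1, h2, h3⟩
    exact ⟨p, h2, h1, h3, Pool.Agent.H548R3.MB.att_of_centre hn h1 h3⟩
  refine ⟨?_, ?_⟩
  · obtain ⟨A, hA1, hA⟩ := Pool.Agent.Zk17.MB.both hn
    refine ⟨A, hA1, fun c hc N hN δ hδ => ?_⟩
    obtain ⟨⟨c', h1, h2⟩, h3⟩ := hA c hc N hN δ hδ.1 hδ.2.1 hδ.2.2
    refine ⟨⟨c', hS _ _ h1, ?_⟩, fun y hy => ?_⟩
    · rw [hP]
      exact h2
    · obtain ⟨c', h4, h5⟩ := h3 y hy
      exact ⟨c', hS _ _ h4, h5⟩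
  · rintro c hc ⟨a, β, ha, hβ, h⟩ hcl
    obtain ⟨r, hr, hr2⟩ := Metric.mem_nhds_iff.1 (isClosed_closure.isOpen_compl.mem_nhds hcl)
    obtain ⟨K, hK1, hK⟩ := Pool.Agent.Zk17.MB.slow hn hc ha hβ h hr (fun m c' hc' => by
      by_contra hcon
      push Not at hcon
      obtain ⟨p, -, hp⟩ := hS c' m hc'
      have h1 : c' ∈ Metric.ball c r := by
        rw [Metric.mem_ball, dist_eq_norm]
        exact hcon
      exact hr2 h1 (subset_closure ⟨p, 0, hp.2.2⟩))
    refine ⟨K, hK1, fun N hN => ?_⟩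
    rw [hP]
    exact hK N hN

end Pool.Agent.Results.MP_c35c17_an.EscapeTimes
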