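import Mathlib
import Pool.Prelude.Def_F_c31e40fa
import Pool.Agent.Zk29.Gen.PreClose

set_option autoImplicit false

/-!
# Critical orbits which come close to a repelling cycle

For every parameter `c` of the Multibrot set, every time `l` and every repelling cycle, the distance
of `c` to the parameters with an attracting cycle is bounded by the distance between `f^l(c)` and the
cycle, in terms of the derivatives, the separation from the critical value and the time at which
points near `c` escape.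
-/

namespace Pool.Agent.Results.MP_c35c17_an.NearPreperiodic

/-- The map `z ↦ z ^ n + c`. -/
def f (n : ℕ) (c : ℂ) : ℂ → ℂ := fun z => z ^ n + c

/-- The parameters `c` for which `z ^ n + c` has an attracting cycle. -/
def hyp (n : ℕ) : Set ℂ := {c | ∃ m z, N62a1eb23.IsAttractingCycle (f n c) m z}

/-- The derivative of the `k`-th iterate at the point `z`. -/
noncomputable def D (n : ℕ) (c z : ℂ) (k : ℕ) : ℂ := deriv (f n c)^[k] z

/-- `W = 1 + log S` where `S` is the sum of the inverse derivatives at `c` of the iterates of order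
less than `l`, plus the corresponding sum over the cycle of period `N` through `b`, divided by
`|(f^l)'(c)| * |1 - 1 / multiplier|`. -/
noncomputable def W (n : ℕ) (c : ℂ) (l : ℕ) (b : ℂ) (N : ℕ) : ℝ :=
  1 + Real.log ((∑ j ∈ Finset.range l, ‖D n c c j‖⁻¹) +
    (‖D n c c l‖ * ‖1 - (D n c b N)⁻¹‖)⁻¹ * ∑ i ∈ Finset.range N, ‖D n c b i‖⁻¹)

/-- The point `b` lies on a repelling cycle of period `N`; the points of the cycle and the iterates
of order `1, …, l - 1` of the critical value have distance at least `δ` from `c`, where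
`0 < δ ≤ 1`. -/
def Cycle (n : ℕ) (c : ℂ) (l : ℕ) (b : ℂ) (N : ℕ) (δ : ℝ) : Prop :=
  1 ≤ N ∧ (f n c)^[N] b = b ∧ 1 < ‖D n c b N‖ ∧
    0 < δ ∧ δ ≤ 1 ∧ (∀ j, 1 ≤ j → j < l → δ ≤ ‖(f n c)^[j] c - c‖) ∧
    ∀ i < N, δ ≤ ‖(f n c)^[i] b - c‖

/-- The constant `A` depends on the degree only. If some point `y` at distance at most
`δ / (A * W ^ A)` from `c` has left the disc of radius `3` at time `M`, and there is no parameter
with an attracting cycle at distance less than `r` from `c`, then `r * |(f^l)'(c)| * δ` is at most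
`A * W ^ A * M ^ 2 * |f^l(c) - b| * (5 - log |f^l(c) - b|)`. -/
theorem result (n : ℕ) (hn : 2 ≤ n) : ∃ A : ℝ, 1 ≤ A ∧
    ∀ c ∈ N62a1eb23.multibrotSet n, ∀ r : ℝ, (∀ c' ∈ hyp n, r ≤ ‖c' - c‖) →
      ∀ l N M : ℕ, 1 ≤ l → 1 ≤ M → ∀ (b y : ℂ) (δ : ℝ), Cycle n c l b N δ →
        3 ≤ ‖(f n c)^[M] y‖ → A * W n c l b N ^ A * ‖y - c‖ ≤ δ →
        r * (‖D n c c l‖ * δ) ≤ A * W n c l b N ^ A * (M : ℝ) ^ 2 *
          (‖(f n c)^[l] c - b‖ * (5 - Real.log ‖(f n c)^[l] c - b‖)) := by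
  obtain ⟨A, hA, h⟩ := Pool.Agent.Zk29.closing_pre hn
  refine ⟨A, hA, ?_⟩
  intro c hc r hr l N M hl hM b y δ hb hy hyc
  obtain ⟨hN, hbN, hb1, hδ, hδ1, hsep, hsep2⟩ := hb
  have hP : ∀ z k, D n c z k = Pool.Agent.W746.LD.P n c z k := fun z k =>
    (Pool.Agent.W746.LD.hasDerivAt_orb z k).deriv
  have hW : W n c l b N = 1 + Real.log ((∑ j ∈ Finset.range l, ‖Pool.Agent.W746.LD.P n c c j‖⁻¹) +
      (‖Pool.Agent.W746.LD.P n c c l‖ * ‖1 - (Pool.Agent.W746.LD.P n c b N)⁻¹‖)⁻¹ *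
        ∑ i ∈ Finset.range N, ‖Pool.Agent.W746.LD.P n c b i‖⁻¹) := by
    unfold W
    simp only [hP]
  rw [hP] at hb1
  have h1 := h c hc l N M hl hN hM b hbN hb1 y hy δ hδ hδ1 hsep hsep2 _ hW hyc
  rw [hP]
  refine le_trans ?_ h1
  gcongr
  have hne : (Pool.Agent.T2H09.DH.Hy n).Nonempty := ⟨0, Pool.Agent.T2H09.DH.zero_mem_Hy hn⟩
  rw [Metric.le_infDist hne]
  intro c' hc'
  rw [dist_comm, dist_eq_norm]
  exact hr c' hc'

end Pool.Agent.Results.MP_c35c17_an.NearPreperiodic
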