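import Mathlib
import Pool.Prelude.Def_F_c31e40fa
import Pool.Agent.Zk29.Gen.Coll

set_option autoImplicit false

/-!
# Near collisions of two points of the critical orbit

For every parameter `c` of the Multibrot set and all times `1 ≤ i < J`, a small distance between the
points `f^i(c)` and `f^J(c)` of the critical orbit forces a parameter near `c` which is superattracting
or for which the two points coincide, with a bound of the distance.
-/

namespace Pool.Agent.Results.MP_c35c17_an.OrbitCollisions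

/-- The map `z ↦ z ^ n + c`. -/
def f (n : ℕ) (c : ℂ) : ℂ → ℂ := fun z => z ^ n + c

/-- The derivative of the `k`-th iterate at the critical value `c`. -/
noncomputable def D (n : ℕ) (c : ℂ) (k : ℕ) : ℂ := deriv (f n c)^[k] c

/-- One plus the logarithm of the weighted sum of the inverse derivatives: those of order less than
`i` have weight `1`, those of order `i, …, J - 1` have weight `1 / |1 - D i / D J|`. -/
noncomputable def W (n : ℕ) (c : ℂ) (i J : ℕ) : ℝ :=
  1 + Real.log ((∑ j ∈ Finset.range i, ‖D n c j‖⁻¹) +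
    ‖1 - D n c i / D n c J‖⁻¹ * ∑ j ∈ Finset.Ico i J, ‖D n c j‖⁻¹)

/-- The iterates of order `1, …, J - 1` of the critical value `c` have distance at least `δ` from
`c`, where `0 < δ ≤ 1`. -/
def Apart (n : ℕ) (c : ℂ) (J : ℕ) (δ : ℝ) : Prop :=
  0 < δ ∧ δ ≤ 1 ∧ ∀ j, 1 ≤ j → j < J → δ ≤ ‖(f n c)^[j] c - c‖

/-- `0` is periodic of period `p` for `z ↦ z ^ n + c'`. -/
def Superattracting (n : ℕ) (c' : ℂ) (p : ℕ) : Prop :=
  1 ≤ p ∧ (f n c')^[p] 0 = 0 ∧ N62a1eb23.IsAttractingCycle (f n c') p 0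

/-- The constant `A` depends on the degree only. If some point `y` at distance at most
`δ / (A * W ^ A)` from `c` has left the disc of radius `3` at time `M`, then there is a parameter
`c'` which is superattracting of period at most `J + 2` or preperiodic, `f^J(c') = f^i(c')`, and whose
distance to `c` is at most `A * W ^ A * M ^ 2 * ρ * (5 - log ρ) / (δ * |(f^J)'(c) - (f^i)'(c)|)`,
where `ρ = |f^J(c) - f^i(c)|`. -/
theorem result (n : ℕ) (hn : 2 ≤ n) : ∃ A : ℝ, 1 ≤ A ∧
    ∀ c ∈ N62a1eb23.multibrotSet n, ∀ i J M : ℕ, 1 ≤ i → i < J → 1 ≤ M →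
      ∀ (δ : ℝ) (y : ℂ), Apart n c J δ → 3 ≤ ‖(f n c)^[M] y‖ →
        A * W n c i J ^ A * ‖y - c‖ ≤ δ →
        ∃ c' : ℂ, ((∃ p ≤ J + 2, Superattracting n c' p) ∨
            (f n c')^[J] c' = (f n c')^[i] c') ∧
          ‖c' - c‖ * (‖D n c J - D n c i‖ * δ) ≤ A * W n c i J ^ A * (M : ℝ) ^ 2 *
            (‖(f n c)^[J] c - (f n c)^[i] c‖ *
              (5 - Real.log ‖(f n c)^[J] c - (f n c)^[i] c‖)) := by
  obtain ⟨A, hA, h⟩ := Pool.Agent.Zk29.closing_coll hn
  refine ⟨A, hA, ?_⟩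
  intro c hc i J M hi hiJ hM δ y hδ hy hyc
  have hP : ∀ k, D n c k = Pool.Agent.W746.LD.P n c c k := fun k =>
    (Pool.Agent.W746.LD.hasDerivAt_orb c k).deriv
  have hW : W n c i J = 1 + Real.log ((∑ j ∈ Finset.range i, ‖Pool.Agent.W746.LD.P n c c j‖⁻¹) +
      ‖1 - Pool.Agent.W746.LD.P n c c i / Pool.Agent.W746.LD.P n c c J‖⁻¹ *
        ∑ j ∈ Finset.Ico i J, ‖Pool.Agent.W746.LD.P n c c j‖⁻¹) := by
    unfold W
    simp only [hP]
  obtain ⟨c', h1, h2⟩ := h c hc i J M hi hiJ hM y hy δ hδ.1 hδ.2.1 hδ.2.2 _ hW hyc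
  refine ⟨c', ?_, ?_⟩
  · rcases h1 with ⟨p, h3, h4, h5⟩ | h1
    · exact Or.inl ⟨p, h4, h3, h5, Pool.Agent.H548R3.MB.att_of_centre hn h3 h5⟩
    · exact Or.inr h1
  · rw [hP, hP]
    exact h2

end Pool.Agent.Results.MP_c35c17_an.OrbitCollisions
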